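import Pool.Agent.Helper49.RU.St

/-! # Project RU, module CRD: the number of tasks -/

set_option autoImplicit false

namespace Pool.Agent.Helper2.RU

open Pool.Agent.Helper49.RU
open MeasureTheory Filter Topology Complex
open scoped ENNReal Cardinal ComplexConjugate

private theorem fun_le (I X : Type) [Countable I] (hX : #X ≤ 𝔠) : #(I → X) ≤ 𝔠 := by
  have h1 : #(I → X) = #X ^ #I := by simp
  rw [h1]
  calc #X ^ #I ≤ 𝔠 ^ #I := Cardinal.power_le_power_right hX
    _ ≤ 𝔠 ^ ℵ₀ := Cardinal.power_le_power_left Cardinal.continuum_ne_zero Cardinal.mk_le_aleph0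
    _ = 𝔠 := Cardinal.continuum_power_aleph0

private theorem set_le (I : Type) [Countable I] : #(Set I) ≤ 𝔠 := by
  have h : #(I → Prop) ≤ 𝔠 := fun_le I Prop ((Cardinal.mk_le_aleph0 (α := Prop)).trans
    Cardinal.aleph0_le_continuum)
  exact h

private theorem prod_le (A : Type) (hA : #A ≤ 𝔠) : #(A × ℕ) ≤ 𝔠 := by
  have h1 : #(A × ℕ) = #A * #ℕ := by simp
  rw [h1, Cardinal.mk_nat]
  calc #A * ℵ₀ ≤ 𝔠 * ℵ₀ := mul_le_mul_left hA _
    _ = 𝔠 := Cardinal.continuum_mul_aleph0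

private theorem sum_le (A B : Type) (hA : #A ≤ 𝔠) (hB : #B ≤ 𝔠) : #(A ⊕ B) ≤ 𝔠 := by
  have h1 : #(A ⊕ B) = #A + #B := by simp
  rw [h1]
  calc #A + #B ≤ 𝔠 + 𝔠 := add_le_add hA hB
    _ = 𝔠 := Cardinal.continuum_add_self

private theorem H_le : #H ≤ 𝔠 := by
  have hinj : Function.Injective
      (fun (w : H) (i : Σ k : ℕ, (Fin k → Fin 3)) => ((w : ∀ k, V k) i.1) i.2) := by
    intro w w' h
    apply lp.ext
    funext k
    ext s
    exact congrFun h ⟨k, s⟩
  refine (Cardinal.mk_le_of_injective hinj).trans (fun_le _ ℂ ?_)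
  exact Cardinal.mk_complex.le

theorem hCRD : StCRD := by
  unfold StCRD
  refine sum_le _ _ (set_le Idx) (sum_le _ _ (prod_le _ (fun_le Idx ℝ Cardinal.mk_real.le))
    (prod_le _ (fun_le Idx H H_le)))

end Pool.Agent.Helper2.RU
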